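import Mathlib
import Pool.Agent.Lib.lead.RevP3

set_option autoImplicit false

namespace Pool.Agent.Results.MP_ff4305_al.Counterexample

/-- An `E`-unitary finitely presented special inverse monoid with right reversible prefix monoid,
solvable word problem in `S/σ` and unsolvable word problem in `S`.
The definitions are in `Pool/Agent/Lib/lead/InvMon.lean`. -/
theorem result : ∃ (n : ℕ) (rels : Set (List (Fin n × Bool))), rels.Finite ∧
    LeadInv.EUnitary (LeadInv.InvM rels) ∧ LeadInv.PrefixRightReversible (LeadInv.InvM rels) ∧
    ComputablePred (fun p : List (Fin n × Bool) × List (Fin n × Bool) =>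
      LeadInv.Sigma (LeadInv.cls rels p.1) (LeadInv.cls rels p.2)) ∧
    ¬ ComputablePred (fun p : List (Fin n × Bool) × List (Fin n × Bool) =>
      LeadInv.cls rels p.1 = LeadInv.cls rels p.2) :=
  LeadInv.main

end Pool.Agent.Results.MP_ff4305_al.Counterexample
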